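import Mathlib

namespace Pool.Agent.H.MP_e6b5d0_co

open MulAction

/-- closed walks of length `p` starting at `v` -/
def W {V : Type} (G : SimpleGraph V) (p : ℕ) (v : V) : Set (ZMod p → V) :=
  {c | c 0 = v ∧ ∀ i, G.Adj (c i) (c (i + 1))}

theorem count {V Γ : Type} [Group Γ] [MulAction Γ V] [Nonempty V] (G : SimpleGraph V)
    (hadj : ∀ (γ : Γ) x y, G.Adj x y → G.Adj (γ • x) (γ • y))
    (hfree : ∀ (γ : Γ) (v : V), γ • v = v → γ = 1)
    (n : ℕ) (e : orbitRel.Quotient Γ V ≃ Fin n) (p : ℕ) [Fact p.Prime] (k hi : ℕ)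
    (hk : ∀ v, (G.neighborSet v).ncard = k) (hkf : ∀ v, (G.neighborSet v).Finite)
    (hfin : ∀ v, (W G p v).Finite) (hlo : ∀ v, k < (W G p v).ncard)
    (hhi : ∀ v, (W G p v).ncard ≤ hi) (hp : n * hi < p) : False := by
  classical
  let Q := orbitRel.Quotient Γ V
  let mk : V → Q := fun v => Quotient.mk (orbitRel Γ V) v
  have : Fintype Q := Fintype.ofEquiv _ e.symm
  have cQ : Fintype.card Q = n := by rw [Fintype.card_congr e, Fintype.card_fin]
  have hn : 0 < n := by
    rw [← cQ]
    exact Fintype.card_pos_iff.mpr ⟨mk (Classical.arbitrary V)⟩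
  have hg : ∀ v : V, ∃ γ : Γ, γ • v = (mk v).out := fun v => Quotient.mk_out (s := orbitRel Γ V) v
  choose g hg using hg
  have mk_smul : ∀ (γ : Γ) v, mk (γ • v) = mk v := fun γ v => Quotient.sound ⟨γ, rfl⟩
  have mk_out : ∀ q : Q, mk q.out = q := fun q => Quotient.out_eq q
  have uniq : ∀ (a b : Γ) (v : V), a • v = b • v → a = b := by
    intro a b v h
    have : b⁻¹ * a = 1 := hfree _ v (by rw [mul_smul, h, inv_smul_smul])
    rw [inv_mul_eq_one] at this
    exact this.symm
  have gmul : ∀ (γ : Γ) v, g (γ • v) * γ = g v := by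
    intro γ v
    apply uniq _ _ v
    rw [mul_smul, hg, hg, mk_smul]
  let Ω := {c : ZMod p → V // c 0 = (mk (c 0)).out ∧ ∀ i, G.Adj (c i) (c (i + 1))}
  let eΩ : Ω ≃ Σ q : Q, W G p q.out :=
    { toFun := fun c => ⟨mk (c.1 0), ⟨c.1, c.2⟩⟩
      invFun := fun s => ⟨s.2.1, by rw [s.2.2.1, mk_out], s.2.2.2⟩
      left_inv := fun c => rfl
      right_inv := by
        rintro ⟨q, c, h0, h1⟩
        obtain rfl : q = mk (c 0) := by rw [h0, mk_out]
        rfl }
  have : ∀ q : Q, Finite (W G p q.out) := fun q => hfin _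
  have : ∀ q : Q, Finite (G.neighborSet q.out) := fun q => hkf _
  have : Finite Ω := Finite.of_equiv _ eΩ.symm
  have : Fintype Ω := Fintype.ofFinite _
  have cΩ : Fintype.card Ω = ∑ q : Q, (W G p q.out).ncard := by
    rw [← Nat.card_eq_fintype_card, Nat.card_congr eΩ, Nat.card_sigma]
    rfl
  have lo : n * (k + 1) ≤ Fintype.card Ω := by
    rw [cΩ, ← cQ]
    exact Finset.card_nsmul_le_sum Finset.univ _ (k + 1) (fun q _ => hlo _)
  have up : Fintype.card Ω ≤ n * hi := by
    rw [cΩ, ← cQ]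
    exact Finset.sum_le_card_nsmul Finset.univ _ hi (fun q _ => hhi _)
  let f : Function.End Ω := fun c => ⟨fun i => g (c.1 1) • c.1 (i + 1), by
    simp only [zero_add]
    rw [mk_smul, hg], fun i => hadj _ _ _ (c.2.2 _)⟩
  have g0 : ∀ c : Ω, g (c.1 0) = 1 := fun c => hfree _ (c.1 0) (by rw [hg, ← c.2.1])
  have fpow : ∀ (j : ℕ) (c : Ω) i, ((f ^ j) c).1 i = g (c.1 j) • c.1 (i + j) := by
    intro j
    induction j with
    | zero => intro c i; simp [g0]; rfl
    | succ j ih =>
      intro c i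
      rw [pow_succ']
      change g (((f ^ j) c).1 1) • ((f ^ j) c).1 (i + 1) = _
      rw [ih, ih, ← mul_smul, gmul]
      push_cast
      rw [add_comm (1 : ZMod p), add_assoc, add_comm (1 : ZMod p)]
  have hf : f ^ p ^ 1 = 1 := by
    rw [pow_one]
    funext c
    apply Subtype.ext
    funext i
    rw [fpow]
    simp [g0]
    rfl
  have md := Equiv.Perm.card_fixedPoints_modEq hf
  have fx : Fintype.card f.fixedPoints ≤ n * k := by
    have c2 : Nat.card (Σ q : Q, G.neighborSet q.out) = n * k := by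
      rw [Nat.card_sigma]
      have : ∀ q : Q, Nat.card (G.neighborSet q.out) = k := fun q => hk _
      simp only [this, Finset.sum_const, Finset.card_univ, cQ, smul_eq_mul]
    rw [← c2, ← Nat.card_eq_fintype_card]
    apply Nat.card_le_card_of_injective (fun c : f.fixedPoints =>
      (⟨mk (c.1.1 0), c.1.1 1, by
        have := c.1.2.2 0
        rw [zero_add] at this
        rw [SimpleGraph.mem_neighborSet, ← c.1.2.1]
        exact this⟩ : Σ q : Q, G.neighborSet q.out))
    intro c c' h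
    have h0 : c.1.1 0 = c'.1.1 0 := by
      rw [c.1.2.1, c'.1.2.1]
      exact congrArg (fun s : Σ q : Q, G.neighborSet q.out => s.1.out) h
    have h1 : c.1.1 1 = c'.1.1 1 :=
      congrArg (fun s : Σ q : Q, G.neighborSet q.out => (s.2 : V)) h
    have st : ∀ d : f.fixedPoints, ∀ i, d.1.1 (i + 1) = (g (d.1.1 1))⁻¹ • d.1.1 i := by
      intro d i
      have : (f d.1).1 i = d.1.1 i := by rw [d.2]
      rw [← this]
      change _ = _ • g (d.1.1 1) • d.1.1 (i + 1)
      rw [inv_smul_smul]
    apply Subtype.ext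
    apply Subtype.ext
    funext i
    obtain ⟨j, rfl⟩ := ZMod.natCast_zmod_surjective i
    induction j with
    | zero => simpa using h0
    | succ j ih =>
      push_cast
      rw [st c, st c', h1, ih]
  have lt1 : Fintype.card Ω < p := lt_of_le_of_lt up hp
  have lt2 : Fintype.card f.fixedPoints < p := by nlinarith
  have := Nat.ModEq.eq_of_lt_of_lt md lt1 lt2
  nlinarith

end Pool.Agent.H.MP_e6b5d0_co
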