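import Pool.Agent.H.MP_e6b5d0_co.A

namespace Pool.Agent.H.MP_e6b5d0_co

abbrev Vx (m : ℕ) : Type := ℤ × ZMod (m + 4) × (Fin (m + 1) → ZMod 2)

variable {m : ℕ}

def Up (x y : Vx m) : Prop :=
  y.1 = x.1 ∧ y.2.1 = x.2.1 + 1 ∧ ∀ j : Fin m, y.2.2 j.castSucc = x.2.2 j.succ

def Vert (x y : Vx m) : Prop := y.1 = x.1 + 1 ∧ y.2 = x.2

theorem one_ne : (1 : ZMod (m + 4)) ≠ 0 := by
  have : ((1 : ℕ) : ZMod (m + 4)) ≠ 0 := by
    rw [Ne, ZMod.natCast_eq_zero_iff]
    intro h
    have := Nat.le_of_dvd (by norm_num) h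
    omega
  simpa using this

theorem two_ne : (1 + 1 : ZMod (m + 4)) ≠ 0 := by
  have : ((1 + 1 : ℕ) : ZMod (m + 4)) ≠ 0 := by
    rw [Ne, ZMod.natCast_eq_zero_iff]
    intro h
    have := Nat.le_of_dvd (by norm_num) h
    omega
  rwa [Nat.cast_add, Nat.cast_one] at this

def X (m : ℕ) : SimpleGraph (Vx m) where
  Adj x y := Up x y ∨ Up y x ∨ Vert x y ∨ Vert y x
  symm := ⟨fun x y h => by tauto⟩
  loopless := ⟨fun x h => by
    rcases h with h | h | h | h
    · exact one_ne (by simpa using h.2.1)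
    · exact one_ne (by simpa using h.2.1)
    · simpa using h.1
    · simpa using h.1⟩

def nb (x : Vx m) : ZMod 2 ⊕ ZMod 2 ⊕ Bool → Vx m
  | Sum.inl b => (x.1, x.2.1 + 1, Fin.snoc (α := fun _ => ZMod 2) (Fin.tail x.2.2) b)
  | Sum.inr (Sum.inl b) => (x.1, x.2.1 - 1, Fin.cons (α := fun _ => ZMod 2) b (Fin.init x.2.2))
  | Sum.inr (Sum.inr true) => (x.1 + 1, x.2)
  | Sum.inr (Sum.inr false) => (x.1 - 1, x.2)

theorem nb_range (x : Vx m) : (X m).neighborSet x = Set.range (nb x) := by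
  ext y
  constructor
  · rintro (h | h | h | h)
    · refine ⟨Sum.inl (y.2.2 (Fin.last m)), ?_⟩
      refine Prod.ext h.1.symm (Prod.ext h.2.1.symm ?_)
      funext j
      refine Fin.lastCases ?_ (fun j => ?_) j
      · simp [nb]
      · simp [nb, Fin.tail, h.2.2 j]
    · refine ⟨Sum.inr (Sum.inl (y.2.2 0)), ?_⟩
      refine Prod.ext h.1 (Prod.ext (by simp [nb, h.2.1]) ?_)
      funext j
      refine Fin.cases ?_ (fun j => ?_) j
      · simp [nb]
      · simp [nb, Fin.init, h.2.2 j]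
    · exact ⟨Sum.inr (Sum.inr true), Prod.ext h.1.symm h.2.symm⟩
    · exact ⟨Sum.inr (Sum.inr false), Prod.ext (by simp [nb, h.1]) h.2⟩
  · rintro ⟨b | b | b, rfl⟩
    · exact Or.inl ⟨rfl, rfl, fun j => by simp [nb, Fin.tail]⟩
    · exact Or.inr (Or.inl ⟨rfl, by simp [nb], fun j => by simp [nb, Fin.init]⟩)
    · cases b
      · exact Or.inr (Or.inr (Or.inr ⟨by simp [nb], rfl⟩))
      · exact Or.inr (Or.inr (Or.inl ⟨rfl, rfl⟩))

theorem nb_inj (x : Vx m) : Function.Injective (nb x) := by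
  have h1 := one_ne (m := m)
  have h2 := two_ne (m := m)
  have e12 : x.2.1 + 1 ≠ x.2.1 - 1 := fun e => h2 (by linear_combination e)
  have e13 : x.2.1 + 1 ≠ x.2.1 := fun e => h1 (by linear_combination e)
  have e23 : x.2.1 - 1 ≠ x.2.1 := fun e => h1 (by linear_combination -e)
  rintro (a | a | a) (b | b | b) h
  · have := congrArg (fun v : Vx m => v.2.2 (Fin.last m)) h
    simpa [nb] using this
  · exact absurd (congrArg (fun v : Vx m => v.2.1) h) e12
  · cases b <;> exact absurd (congrArg (fun v : Vx m => v.2.1) h) e13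
  · exact absurd (congrArg (fun v : Vx m => v.2.1) h) e12.symm
  · have := congrArg (fun v : Vx m => v.2.2 0) h
    simpa [nb] using this
  · cases b <;> exact absurd (congrArg (fun v : Vx m => v.2.1) h) e23
  · cases a <;> exact absurd (congrArg (fun v : Vx m => v.2.1) h) e13.symm
  · cases a <;> exact absurd (congrArg (fun v : Vx m => v.2.1) h) e23.symm
  · have := congrArg (fun v : Vx m => v.1) h
    cases a <;> cases b <;> simp [nb] at this ⊢ <;> omega

theorem deg (x : Vx m) : ((X m).neighborSet x).ncard = 6 := by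
  rw [nb_range, Set.ncard_range_of_injective (nb_inj x)]
  simp

theorem deg_fin (x : Vx m) : ((X m).neighborSet x).Finite := by
  rw [nb_range]; exact Set.finite_range _

def tr (dz : ℤ) (dl : ZMod (m + 4)) (v : ZMod (m + 4) → ZMod 2) : Vx m ≃ Vx m where
  toFun x := (x.1 + dz, x.2.1 + dl, fun j => x.2.2 j + v (x.2.1 + (j : ℕ)))
  invFun x := (x.1 - dz, x.2.1 - dl, fun j => x.2.2 j - v (x.2.1 - dl + (j : ℕ)))
  left_inv x := by simp
  right_inv x := by simp

theorem tr_up (dz : ℤ) (dl : ZMod (m + 4)) (v : ZMod (m + 4) → ZMod 2) (x y : Vx m) :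
    Up (tr dz dl v x) (tr dz dl v y) ↔ Up x y := by
  unfold Up
  simp only [tr, Equiv.coe_fn_mk, add_left_inj, add_right_comm _ dl 1]
  refine and_congr Iff.rfl (and_congr_right fun h => forall_congr' fun j => ?_)
  rw [h, Fin.val_castSucc, Fin.val_succ]
  push_cast
  rw [add_assoc, add_comm (1 : ZMod (m + 4)), add_left_inj]

theorem tr_vert (dz : ℤ) (dl : ZMod (m + 4)) (v : ZMod (m + 4) → ZMod 2) (x y : Vx m) :
    Vert (tr dz dl v x) (tr dz dl v y) ↔ Vert x y := by
  unfold Vert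
  simp only [tr, Equiv.coe_fn_mk, add_left_inj, add_right_comm _ dz 1, Prod.ext_iff, funext_iff]
  refine and_congr Iff.rfl (and_congr_right fun h => forall_congr' fun j => ?_)
  rw [h, add_left_inj]

theorem vt (x y : Vx m) : ∃ φ : X m ≃g X m, φ x = y := by
  refine ⟨⟨tr (y.1 - x.1) (y.2.1 - x.2.1)
    (fun t => if h : (t - x.2.1).val < m + 1 then y.2.2 ⟨_, h⟩ - x.2.2 ⟨_, h⟩ else 0), ?_⟩, ?_⟩
  · intro a b
    simp only [X, tr_up, tr_vert]
  · refine Prod.ext (by simp [tr]) (Prod.ext (by simp [tr]) ?_)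
    funext j
    have : (x.2.1 + (j : ℕ) - x.2.1).val = j := by
      rw [add_sub_cancel_left, ZMod.val_natCast_of_lt (by omega)]
    change x.2.2 j + (if h : (x.2.1 + (j : ℕ) - x.2.1).val < m + 1 then
      y.2.2 ⟨_, h⟩ - x.2.2 ⟨_, h⟩ else 0) = y.2.2 j
    simp only [this]
    rw [dif_pos j.2]
    simp

end Pool.Agent.H.MP_e6b5d0_co
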