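import Pool.Agent.H.MP_e6b5d0_co.B

namespace Pool.Agent.H.MP_e6b5d0_co

variable {m : ℕ}

def UW (v : Vx m) : Set (ZMod (m + 4) → Vx m) := {c | c 0 = v ∧ ∀ i, Up (c i) (c (i + 1))}

theorem dir (hodd : Odd (m + 4)) (c : ZMod (m + 4) → Vx m)
    (hc : ∀ i, (X m).Adj (c i) (c (i + 1))) :
    (∀ i, Up (c i) (c (i + 1))) ∨ (∀ i, Up (c (i + 1)) (c i)) := by
  classical
  let δ : ZMod (m + 4) → ℤ := fun i =>
    if Up (c i) (c (i + 1)) then 1 else if Up (c (i + 1)) (c i) then -1 else 0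
  let ε : ZMod (m + 4) → ℤ := fun i => (c (i + 1)).1 - (c i).1
  have key : ∀ i, ((δ i : ℤ) : ZMod (m + 4)) = (c (i + 1)).2.1 - (c i).2.1 ∧
      ((δ i + ε i : ℤ) : ZMod 2) = 1 := by
    intro i
    by_cases h1 : Up (c i) (c (i + 1))
    · simp [δ, ε, h1, h1.1, h1.2.1]
    by_cases h2 : Up (c (i + 1)) (c i)
    · simp [δ, ε, h1, h2, h2.1, h2.2.1]
    rcases hc i with h | h | h | h
    · exact absurd h h1
    · exact absurd h h2
    · simp [δ, ε, h1, h2, h.1, h.2]
    · simp [δ, ε, h1, h2, h.1, h.2]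
  have tel : ∀ {A : Type} [AddCommGroup A] (f : ZMod (m + 4) → A), ∑ i, (f (i + 1) - f i) = 0 := by
    intro A _ f
    rw [Finset.sum_sub_distrib, sub_eq_zero]
    exact Equiv.sum_comp (Equiv.addRight 1) f
  have s1 : ((∑ i, δ i : ℤ) : ZMod (m + 4)) = 0 := by
    push_cast
    simp only [(key _).1]
    exact tel (fun i => (c i).2.1)
  have s2 : ∑ i, ε i = 0 := tel (fun i => (c i).1)
  have s3 : ((∑ i, δ i : ℤ) : ZMod 2) = 1 := by
    have : ∑ i, δ i = ∑ i, (δ i + ε i) := by rw [Finset.sum_add_distrib, s2, add_zero]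
    rw [this, Int.cast_sum]
    simp only [(key _).2, Finset.sum_const, Finset.card_univ, ZMod.card, nsmul_eq_mul, mul_one]
    exact hodd.natCast_zmod_two
  rw [ZMod.intCast_zmod_eq_zero_iff_dvd] at s1
  obtain ⟨t, ht⟩ := s1
  have b1 : ∀ i, 0 ≤ 1 - δ i := by intro i; simp only [δ]; split_ifs <;> norm_num
  have b2 : ∀ i, 0 ≤ 1 + δ i := by intro i; simp only [δ]; split_ifs <;> norm_num
  have e1 : ∑ i, (1 - δ i) = ((m + 4 : ℕ) : ℤ) * (1 - t) := by
    rw [Finset.sum_sub_distrib, ht]; simp [ZMod.card]; ring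
  have e2 : ∑ i, (1 + δ i) = ((m + 4 : ℕ) : ℤ) * (1 + t) := by
    rw [Finset.sum_add_distrib, ht]; simp [ZMod.card]; ring
  have n1 := Finset.sum_nonneg (s := Finset.univ) (fun i _ => b1 i)
  have n2 := Finset.sum_nonneg (s := Finset.univ) (fun i _ => b2 i)
  rw [e1] at n1
  rw [e2] at n2
  have pos : (0 : ℤ) < ((m + 4 : ℕ) : ℤ) := by positivity
  have t1 := nonneg_of_mul_nonneg_right n1 pos
  have t2 := nonneg_of_mul_nonneg_right n2 pos
  have t0 : t ≠ 0 := by
    rintro rfl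
    rw [ht] at s3
    simp at s3
  obtain rfl | rfl : t = 1 ∨ t = -1 := by omega
  · left
    rw [sub_self, mul_zero, Finset.sum_eq_zero_iff_of_nonneg (fun i _ => b1 i)] at e1
    intro i
    have := e1 i (Finset.mem_univ _)
    by_contra h
    simp only [δ, if_neg h] at this
    split_ifs at this <;> omega
  · right
    rw [add_neg_cancel, mul_zero, Finset.sum_eq_zero_iff_of_nonneg (fun i _ => b2 i)] at e2
    intro i
    have := e2 i (Finset.mem_univ _)
    by_contra h
    simp only [δ, if_neg h] at this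
    split_ifs at this <;> omega

def rd (c : ZMod (m + 4) → Vx m) : Fin 3 → ZMod 2 :=
  fun r => (c ((m + 1 + r : ℕ) : ZMod (m + 4))).2.2 0

theorem up_word (c : ZMod (m + 4) → Vx m) (hc : ∀ i, Up (c i) (c (i + 1))) :
    ∀ (j : Fin (m + 1)) i, (c i).2.2 j = (c (i + (j : ℕ))).2.2 0 := by
  intro j
  induction j using Fin.induction with
  | zero => intro i; simp
  | succ j ih =>
    intro i
    rw [← (hc i).2.2 j, ih, Fin.val_castSucc, Fin.val_succ]
    push_cast
    rw [add_assoc, add_comm (1 : ZMod (m + 4))]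

theorem rd_inj (v : Vx m) : Set.InjOn rd (UW v) := by
  intro c hc c' hc' h
  have w0 : ∀ i, (c i).2.2 0 = (c' i).2.2 0 := by
    intro i
    by_cases q : i.val < m + 1
    · have a1 := up_word c hc.2 ⟨_, q⟩ 0
      have a2 := up_word c' hc'.2 ⟨_, q⟩ 0
      simp only [zero_add, ZMod.natCast_val, ZMod.cast_id', id_eq] at a1 a2
      rw [← a1, ← a2, hc.1, hc'.1]
    · have lt := ZMod.val_lt i
      have := congrFun h ⟨i.val - (m + 1), by omega⟩
      simp only [rd] at this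
      rw [show m + 1 + (i.val - (m + 1)) = i.val by omega] at this
      simpa using this
  have w1 : ∀ j : ℕ, (c j).1 = (c' j).1 ∧ (c j).2.1 = (c' j).2.1 := by
    intro j
    induction j with
    | zero => simp [hc.1, hc'.1]
    | succ j ih =>
      push_cast
      rw [(hc.2 j).1, (hc'.2 j).1, (hc.2 j).2.1, (hc'.2 j).2.1, ih.1, ih.2]
      exact ⟨rfl, rfl⟩
  funext i
  obtain ⟨j, rfl⟩ := ZMod.natCast_zmod_surjective i
  refine Prod.ext (w1 j).1 (Prod.ext (w1 j).2 ?_)
  funext s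
  rw [up_word c hc.2, up_word c' hc'.2, w0]

theorem rd_surj (v : Vx m) (b : Fin 3 → ZMod 2) : ∃ c ∈ UW v, rd c = b := by
  let U : ZMod (m + 4) → ZMod 2 := fun s =>
    if h : s.val < m + 1 then v.2.2 ⟨_, h⟩ else b ⟨s.val - (m + 1), by
      have := ZMod.val_lt s; omega⟩
  refine ⟨fun t => (v.1, v.2.1 + t, fun j => U (t + (j : ℕ))), ⟨?_, ?_⟩, ?_⟩
  · refine Prod.ext rfl (Prod.ext (by simp) ?_)
    funext j
    have : ((0 : ZMod (m + 4)) + (j : ℕ)).val = j := by
      rw [zero_add, ZMod.val_natCast_of_lt (by omega)]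
    simp only [U, this]
    rw [dif_pos j.2]
  · intro i
    refine ⟨rfl, by simp [add_assoc], fun j => ?_⟩
    simp only [Fin.val_castSucc, Fin.val_succ]
    push_cast
    rw [add_assoc, add_comm (1 : ZMod (m + 4))]
  · funext r
    have : (((m + 1 + r : ℕ) : ZMod (m + 4)) + ((0 : Fin (m + 1)) : ℕ)).val = m + 1 + r := by
      rw [Fin.val_zero, Nat.cast_zero, add_zero, ZMod.val_natCast_of_lt (by omega)]
    simp only [rd, U, this]
    rw [dif_neg (by omega)]
    congr 1
    apply Fin.ext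
    simp

theorem UW_fin (v : Vx m) : (UW v).Finite :=
  Set.Finite.of_finite_image (Set.toFinite _) (rd_inj v)

theorem UW_card (v : Vx m) : (UW v).ncard = 8 := by
  rw [← (rd_inj v).ncard_image]
  have : rd '' UW v = Set.univ := Set.eq_univ_of_forall (fun b => rd_surj v b)
  rw [this, Set.ncard_univ]
  simp

theorem W_sub (hodd : Odd (m + 4)) (v : Vx m) :
    W (X m) (m + 4) v ⊆ UW v ∪ (fun c i => c (-i)) '' UW v := by
  intro c hc
  rcases dir hodd c hc.2 with h | h
  · exact Or.inl ⟨hc.1, h⟩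
  · refine Or.inr ⟨fun i => c (-i), ⟨by simpa using hc.1, fun i => ?_⟩, by funext i; simp⟩
    have := h (-(i + 1))
    rwa [show -(i + 1) + 1 = -i by ring] at this

theorem W_fin (hodd : Odd (m + 4)) (v : Vx m) : (W (X m) (m + 4) v).Finite :=
  ((UW_fin v).union ((UW_fin v).image _)).subset (W_sub hodd v)

theorem W_hi (hodd : Odd (m + 4)) (v : Vx m) : (W (X m) (m + 4) v).ncard ≤ 16 := by
  have h1 := Set.ncard_le_ncard (W_sub hodd v) ((UW_fin v).union ((UW_fin v).image _))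
  have h2 := Set.ncard_union_le (UW v) ((fun c i => c (-i)) '' UW v)
  have h3 := Set.ncard_image_le (f := fun (c : ZMod (m + 4) → Vx m) i => c (-i)) (UW_fin v)
  have h4 := UW_card v
  omega

theorem W_lo (hodd : Odd (m + 4)) (v : Vx m) : 6 < (W (X m) (m + 4) v).ncard := by
  have h1 : UW v ⊆ W (X m) (m + 4) v := fun c hc => ⟨hc.1, fun i => Or.inl (hc.2 i)⟩
  have h2 := Set.ncard_le_ncard h1 (W_fin hodd v)
  have h4 := UW_card v
  omega

end Pool.Agent.H.MP_e6b5d0_co
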