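import Pool.Agent.H.MP_e6b5d0_co.C

namespace Pool.Agent.H.MP_e6b5d0_co

variable {m : ℕ}

def J (S : Set (Vx m)) (x y : Vx m) : Prop := ∃ w : (X m).Walk x y, ∀ v ∈ w.support, v ∉ S

theorem J.refl {S : Set (Vx m)} {x : Vx m} (h : x ∉ S) : J S x x :=
  ⟨SimpleGraph.Walk.nil, by simpa using h⟩

theorem J.step {S : Set (Vx m)} {x y z : Vx m} (h : J S x y) (a : (X m).Adj y z) (hz : z ∉ S) :
    J S x z := by
  obtain ⟨w, hw⟩ := h
  refine ⟨w.concat a, fun v hv => ?_⟩
  rw [SimpleGraph.Walk.support_concat, List.mem_append] at hv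
  rcases hv with hv | hv
  · exact hw v hv
  · rw [List.mem_singleton] at hv; rwa [hv]

theorem J.symm {S : Set (Vx m)} {x y : Vx m} (h : J S x y) : J S y x := by
  obtain ⟨w, hw⟩ := h
  exact ⟨w.reverse, fun v hv => hw v (by simpa using hv)⟩

theorem J_level (S : Set (Vx m)) (z : ℤ) (hS : ∀ v ∈ S, v.1 ≠ z) (s s' : _) :
    J S (z, s) (z, s') := by
  obtain ⟨l, a⟩ := s
  obtain ⟨l', a'⟩ := s'
  let T : ℕ := m + 1 + (l' - l - (m + 1 : ℕ)).val
  let u : ℕ → ZMod 2 := fun s =>
    if h : s < m + 1 then a ⟨s, h⟩ else if h : s - T < m + 1 then a' ⟨s - T, h⟩ else 0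
  have key : ∀ t : ℕ, J S (z, l, a) (z, l + t, fun j => u (t + j)) := by
    intro t
    induction t with
    | zero =>
      have : (fun j : Fin (m + 1) => u (0 + j)) = a := by
        funext j
        simp only [u, zero_add]
        rw [dif_pos j.2]
      rw [this, Nat.cast_zero, add_zero]
      exact J.refl (fun h => hS _ h rfl)
    | succ t ih =>
      refine ih.step (Or.inl ⟨rfl, by push_cast; ring, fun j => ?_⟩) (fun h => hS _ h rfl)
      simp only [Fin.val_castSucc, Fin.val_succ]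
      congr 1
      omega
  have := key T
  have e1 : l + (T : ℕ) = l' := by
    simp only [T]
    rw [Nat.cast_add, ZMod.natCast_val, ZMod.cast_id', id_eq]
    ring
  have e2 : (fun j : Fin (m + 1) => u (T + j)) = a' := by
    funext j
    simp only [u, add_tsub_cancel_left]
    rw [dif_neg (by simp only [T]; omega), dif_pos j.2]
  rwa [e1, e2] at this

theorem J_up (S : Set (Vx m)) (t : ℕ) (x y : Vx m) (hy : y.1 = x.1 + t)
    (hS : ∀ v ∈ S, v.1 < x.1 ∨ y.1 < v.1) : J S x y := by
  induction t generalizing y with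
  | zero =>
    obtain ⟨z, s⟩ := x
    obtain ⟨z', s'⟩ := y
    simp only [Nat.cast_zero, add_zero] at hy hS
    subst hy
    exact J_level S _ (fun v hv => by have := hS v hv; omega) _ _
  | succ t ih =>
    have h1 := ih (y.1 - 1, y.2) (by push_cast at hy; simp only; omega)
      (fun v hv => by have := hS v hv; simp only; omega)
    refine h1.step (Or.inr (Or.inr (Or.inl ⟨by simp, rfl⟩))) (fun h => ?_)
    have := hS _ h
    push_cast at hy
    omega

theorem J_all (S : Set (Vx m)) (x y : Vx m)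
    (hS : ∀ v ∈ S, (v.1 < x.1 ∧ v.1 < y.1) ∨ (x.1 < v.1 ∧ y.1 < v.1)) : J S x y := by
  rcases le_total x.1 y.1 with h | h
  · exact J_up S (y.1 - x.1).toNat x y (by omega) (fun v hv => by have := hS v hv; omega)
  · exact (J_up S (x.1 - y.1).toNat y x (by omega) (fun v hv => by have := hS v hv; omega)).symm

theorem conn : (X m).Connected := by
  refine ⟨fun x y => ?_⟩
  obtain ⟨w, -⟩ := J_all ∅ x y (by simp)
  exact ⟨w⟩

theorem adj_ht {x y : Vx m} (h : (X m).Adj x y) : y.1 ≤ x.1 + 1 ∧ x.1 ≤ y.1 + 1 := by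
  rcases h with h | h | h | h <;> have := h.1 <;> omega

theorem not_J {x y : Vx m} (h : J {v | v.1 = 0} x y) (hx : 0 < x.1) : 0 < y.1 := by
  obtain ⟨w, hw⟩ := h
  induction w with
  | nil => exact hx
  | @cons a b c hab w ih =>
    apply ih
    · have h1 := adj_ht hab
      have h2 : b.1 ≠ 0 := hw b (by simp)
      omega
    · intro v hv
      exact hw v (by simp [hv])

theorem slab (B : ℤ) : {v : Vx m | -B ≤ v.1 ∧ v.1 ≤ B}.Finite := by
  refine ((Set.finite_Icc (-B) B).prod (Set.finite_univ)).subset ?_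
  intro v hv
  exact ⟨hv, trivial⟩

theorem ray_dir (r : ℕ → Vx m) (hi : Function.Injective r)
    (ha : ∀ n, (X m).Adj (r n) (r (n + 1))) :
    (∀ B : ℤ, ∃ N, ∀ i ≥ N, B < (r i).1) ∨ (∀ B : ℤ, ∃ N, ∀ i ≥ N, (r i).1 < -B) := by
  have far : ∀ B : ℤ, ∃ N, ∀ i ≥ N, (r i).1 < -B ∨ B < (r i).1 := by
    intro B
    obtain ⟨N, hN⟩ := ((slab B).preimage hi.injOn).bddAbove
    refine ⟨N + 1, fun i hi => ?_⟩
    by_contra h
    have : i ≤ N := hN (show -B ≤ (r i).1 ∧ (r i).1 ≤ B by omega)
    omega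
  obtain ⟨N0, h0⟩ := far 0
  rcases h0 N0 le_rfl with s | s
  · right
    have neg : ∀ i ≥ N0, (r i).1 < 0 := by
      intro i hi
      induction i, hi using Nat.le_induction with
      | base => omega
      | succ i hi ih =>
        have := adj_ht (ha i)
        have := h0 (i + 1) (by omega)
        omega
    intro B
    obtain ⟨N, hN⟩ := far |B|
    refine ⟨max N N0, fun i hi => ?_⟩
    have := hN i (le_of_max_le_left hi)
    have := neg i (le_of_max_le_right hi)
    have := le_abs_self B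
    have := abs_nonneg B
    omega
  · left
    have pos : ∀ i ≥ N0, 0 < (r i).1 := by
      intro i hi
      induction i, hi using Nat.le_induction with
      | base => omega
      | succ i hi ih =>
        have := adj_ht (ha i)
        have := h0 (i + 1) (by omega)
        omega
    intro B
    obtain ⟨N, hN⟩ := far |B|
    refine ⟨max N N0, fun i hi => ?_⟩
    have := hN i (le_of_max_le_left hi)
    have := pos i (le_of_max_le_right hi)
    have := le_abs_self B
    have := abs_nonneg B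
    omega

theorem bd (S : Set (Vx m)) (hS : S.Finite) : ∃ B : ℕ, ∀ v ∈ S, -(B : ℤ) ≤ v.1 ∧ v.1 ≤ B := by
  obtain ⟨B, hB⟩ := (hS.image (fun v => v.1.natAbs)).bddAbove
  refine ⟨B, fun v hv => ?_⟩
  have : v.1.natAbs ≤ B := hB ⟨v, hv, rfl⟩
  omega

end Pool.Agent.H.MP_e6b5d0_co
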